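import Mathlib
import Pool.Agent.H387R2.U7

set_option autoImplicit false

/-! Sets of linear forms `a n + h`: local densities. -/

namespace Pool.Agent.W218.MU

open Finset Filter Topology Pool.Agent.H387R2 Pool.Agent.H386R2.HL

/-- number of `n mod p` at which some form of `T` vanishes -/
def w (T : Finset (ℕ × ℕ)) (p : ℕ) : ℕ := ((range p).filter (fun n => ∃ L ∈ T, p ∣ L.1 * n + L.2)).card

/-- local factor -/
noncomputable def loc (T : Finset (ℕ × ℕ)) (p : ℕ) : ℝ := (1 - (w T p : ℝ) / p) / (1 - 1 / (p : ℝ)) ^ T.card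

/-- singular series -/
noncomputable def SL (T : Finset (ℕ × ℕ)) : ℝ := ∏' p : Nat.Primes, loc T p

/-- classes `b` mod `W` at which all forms of `T` are coprime to `W` -/
def g (W : ℕ) (T : Finset (ℕ × ℕ)) : ℕ := ((range W).filter (fun b => ∀ L ∈ T, Nat.Coprime W (L.1 * b + L.2))).card

/-- primitive forms -/
def Prim (T : Finset (ℕ × ℕ)) : Prop := ∀ L ∈ T, 1 ≤ L.1 ∧ Nat.Coprime L.1 L.2

lemma w_le_p (T : Finset (ℕ × ℕ)) (p : ℕ) : w T p ≤ p := by
  unfold w
  exact (card_filter_le _ _).trans (by simp)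

lemma g_prime (T : Finset (ℕ × ℕ)) {p : ℕ} (hp : p.Prime) : g p T + w T p = p := by
  classical
  have h := card_filter_add_card_filter_not (s := range p) (fun b => ∀ L ∈ T, Nat.Coprime p (L.1 * b + L.2))
  rw [card_range] at h
  have e : ((range p).filter (fun b => ¬ ∀ L ∈ T, Nat.Coprime p (L.1 * b + L.2))).card = w T p := by
    unfold w
    congr 1
    apply filter_congr
    intro n _
    constructor
    · intro h0
      by_contra hcon
      push Not at hcon
      exact h0 fun L hL => (hp.coprime_iff_not_dvd).2 (hcon L hL)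
    · rintro ⟨L, hL, h1⟩ h0
      exact (hp.coprime_iff_not_dvd).1 (h0 L hL) h1
  rw [e] at h
  exact h

lemma cop_congr {M m n : ℕ} (L : ℕ × ℕ) (h : m ≡ n [MOD M]) :
    Nat.Coprime M (L.1 * m + L.2) ↔ Nat.Coprime M (L.1 * n + L.2) := by
  have h2 : (L.1 * m + L.2) ≡ (L.1 * n + L.2) [MOD M] := (h.mul_left L.1).add_right L.2
  unfold Nat.Coprime
  rw [Nat.gcd_comm M (L.1 * m + L.2), Nat.gcd_comm M (L.1 * n + L.2), h2.gcd_eq]

lemma g_mul (T : Finset (ℕ × ℕ)) {M N : ℕ} (hM : 0 < M) (hN : 0 < N) (h : Nat.Coprime M N) :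
    g (M * N) T = g M T * g N T := by
  classical
  unfold g
  rw [← card_product]
  apply card_nbij' (fun m => (m % M, m % N)) (fun q => (Nat.chineseRemainder h q.1 q.2 : ℕ))
  · intro m hm
    rw [mem_coe, mem_filter] at hm
    rw [mem_coe, mem_product, mem_filter, mem_filter, mem_range, mem_range]
    refine ⟨⟨Nat.mod_lt _ hM, fun L hL => ?_⟩, ⟨Nat.mod_lt _ hN, fun L hL => ?_⟩⟩
    · rw [cop_congr L (Nat.mod_modEq m M)]; exact (hm.2 L hL).coprime_mul_right
    · rw [cop_congr L (Nat.mod_modEq m N)]; exact (hm.2 L hL).coprime_mul_left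
  · intro q hq
    rw [mem_coe, mem_product, mem_filter, mem_filter, mem_range, mem_range] at hq
    rw [mem_coe, mem_filter, mem_range]
    refine ⟨Nat.chineseRemainder_lt_mul h _ _ hM.ne' hN.ne', fun L hL => ?_⟩
    have h1 := (Nat.chineseRemainder h q.1 q.2).2
    refine Nat.Coprime.mul_left ?_ ?_
    · rw [cop_congr L h1.1]; exact hq.1.2 L hL
    · rw [cop_congr L h1.2]; exact hq.2.2 L hL
  · intro m hm
    rw [mem_coe, mem_filter, mem_range] at hm
    have h1 := (Nat.chineseRemainder h (m % M) (m % N)).2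
    have h2 : (Nat.chineseRemainder h (m % M) (m % N) : ℕ) ≡ m [MOD M * N] := by
      rw [← Nat.modEq_and_modEq_iff_modEq_mul h]
      exact ⟨h1.1.trans (Nat.mod_modEq _ _), h1.2.trans (Nat.mod_modEq _ _)⟩
    exact Nat.ModEq.eq_of_lt_of_lt h2 (Nat.chineseRemainder_lt_mul h _ _ hM.ne' hN.ne') hm.1
  · intro q hq
    rw [mem_coe, mem_product, mem_filter, mem_filter, mem_range, mem_range] at hq
    have h1 := (Nat.chineseRemainder h q.1 q.2).2
    have e1 : (Nat.chineseRemainder h q.1 q.2 : ℕ) % M = q.1 := by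
      have := h1.1
      unfold Nat.ModEq at this
      rw [this, Nat.mod_eq_of_lt hq.1.1]
    have e2 : (Nat.chineseRemainder h q.1 q.2 : ℕ) % N = q.2 := by
      have := h1.2
      unfold Nat.ModEq at this
      rw [this, Nat.mod_eq_of_lt hq.2.1]
    exact Prod.ext e1 e2

lemma prod_one_sub_w (T : Finset (ℕ × ℕ)) (s : Finset ℕ) (hs : ∀ p ∈ s, p.Prime) :
    ∏ p ∈ s, (1 - (w T p : ℝ) / p) = (g (∏ p ∈ s, p) T : ℝ) / ((∏ p ∈ s, p : ℕ) : ℝ) := by
  classical
  induction s using Finset.induction_on with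
  | empty =>
    simp [g]
  | insert p s hps ih =>
    have hp := hs p (mem_insert_self _ _)
    have hs' : ∀ q ∈ s, q.Prime := fun q hq => hs q (mem_insert_of_mem hq)
    rw [prod_insert hps, prod_insert hps, ih hs', g_mul T hp.pos]
    · have h1 := g_prime T hp
      have h2 : (g p T : ℝ) = p - w T p := by
        have : ((g p T + w T p : ℕ) : ℝ) = p := by exact_mod_cast h1
        push_cast at this
        linarith
      have hp0 : (p : ℝ) ≠ 0 := by exact_mod_cast hp.ne_zero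
      have hP0 : ((∏ q ∈ s, q : ℕ) : ℝ) ≠ 0 := by
        have : ∏ q ∈ s, q ≠ 0 := prod_ne_zero_iff.2 fun q hq => (hs' q hq).ne_zero
        exact_mod_cast this
      push_cast at hP0 ⊢
      rw [h2]
      field_simp
    · exact prod_pos fun q hq => (hs' q hq).pos
    · apply Nat.Coprime.prod_right
      intro q hq
      rw [Nat.coprime_primes hp (hs' q hq)]
      rintro rfl
      exact hps hq

/-- truncated singular series as a count -/
lemma trunc_eq (T : Finset (ℕ × ℕ)) (y : ℕ) :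
    ∏ p ∈ (y + 1).primesBelow, loc T p =
      ((Uni.WW y : ℝ) / Nat.totient (Uni.WW y)) ^ T.card * (g (Uni.WW y) T / Uni.WW y) := by
  unfold loc
  rw [prod_div_distrib, prod_one_sub_w T _ (fun p hp => Nat.prime_of_mem_primesBelow hp), prod_pow]
  have hW : (0:ℝ) < Uni.WW y := by exact_mod_cast Uni.WW_pos y
  have hφ : (0:ℝ) < Nat.totient (Uni.WW y) := by exact_mod_cast Nat.totient_pos.2 (Uni.WW_pos y)
  have e : ∏ p ∈ (y + 1).primesBelow, (1 - 1 / (p : ℝ)) = (Nat.totient (Uni.WW y) : ℝ) / Uni.WW y := by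
    rw [Uni.totient_WW]
    field_simp
  rw [e]
  change (g (Uni.WW y) T : ℝ) / (Uni.WW y : ℝ) / _ = _
  rw [div_pow, div_pow]
  field_simp

/-- roots of one form -/
lemma one_root {L : ℕ × ℕ} (hL : Nat.Coprime L.1 L.2) {p : ℕ} (hp : p.Prime) :
    ((range p).filter (fun n => p ∣ L.1 * n + L.2)).card ≤ 1 := by
  rw [card_le_one]
  intro r hr s hs
  rw [mem_filter, mem_range] at hr hs
  have hb : ¬ p ∣ L.1 := by
    intro h
    have h2 : p ∣ L.2 := (Nat.dvd_add_right (dvd_mul_of_dvd_left h r)).1 hr.2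
    have := Nat.dvd_gcd h h2
    rw [hL] at this
    exact hp.one_lt.ne' (Nat.dvd_one.1 this)
  have h1 : L.1 * r ≡ L.1 * s [MOD p] := by
    have e : L.1 * r + L.2 ≡ L.1 * s + L.2 [MOD p] :=
      (Nat.modEq_zero_iff_dvd.2 hr.2).trans (Nat.modEq_zero_iff_dvd.2 hs.2).symm
    exact Nat.ModEq.add_right_cancel' L.2 e
  have h2 : r ≡ s [MOD p] := by
    apply Nat.ModEq.cancel_left_of_coprime _ h1
    rw [← Nat.Coprime, hp.coprime_iff_not_dvd]
    exact hb
  exact Nat.ModEq.eq_of_lt_of_lt h2 hr.1 hs.1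

lemma w_le {T : Finset (ℕ × ℕ)} (hT : Prim T) {p : ℕ} (hp : p.Prime) : w T p ≤ T.card := by
  classical
  have hsub : (range p).filter (fun n => ∃ L ∈ T, p ∣ L.1 * n + L.2) ⊆
      T.biUnion (fun L => (range p).filter (fun n => p ∣ L.1 * n + L.2)) := by
    intro n hn
    rw [mem_filter] at hn
    obtain ⟨h1, L, hL, h2⟩ := hn
    rw [mem_biUnion]
    exact ⟨L, hL, mem_filter.2 ⟨h1, h2⟩⟩
  unfold w
  calc _ ≤ (T.biUnion (fun L => (range p).filter (fun n => p ∣ L.1 * n + L.2))).card := card_le_card hsub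
    _ ≤ ∑ L ∈ T, ((range p).filter (fun n => p ∣ L.1 * n + L.2)).card := card_biUnion_le
    _ ≤ ∑ _L ∈ T, 1 := sum_le_sum fun L hL => one_root (hT L hL).2 hp
    _ = T.card := by simp

/-- the resultant of two forms -/
def res (L L' : ℕ × ℕ) : ℕ := Nat.dist (L.1 * L'.2) (L'.1 * L.2)

lemma res_ne {L L' : ℕ × ℕ} (h1 : 1 ≤ L.1) (h2 : Nat.Coprime L.1 L.2) (h1' : 1 ≤ L'.1)
    (h2' : Nat.Coprime L'.1 L'.2) (hne : L ≠ L') : res L L' ≠ 0 := by
  intro h
  have e : L.1 * L'.2 = L'.1 * L.2 := Nat.eq_of_dist_eq_zero h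
  have d1 : L.1 ∣ L'.1 := by
    apply h2.dvd_of_dvd_mul_right
    rw [← e]; exact Dvd.intro _ rfl
  have d2 : L'.1 ∣ L.1 := by
    apply h2'.dvd_of_dvd_mul_right
    rw [e]; exact Dvd.intro _ rfl
  have e1 : L.1 = L'.1 := Nat.dvd_antisymm d1 d2
  apply hne
  apply Prod.ext e1
  rw [e1] at e
  exact (Nat.eq_of_mul_eq_mul_left (by omega) e).symm

/-- the product of the leading coefficients and the resultants -/
def disc (T : Finset (ℕ × ℕ)) : ℕ := (∏ L ∈ T, L.1) * ∏ q ∈ T ×ˢ T, if q.1 = q.2 then 1 else res q.1 q.2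

lemma disc_ne {T : Finset (ℕ × ℕ)} (hT : Prim T) : disc T ≠ 0 := by
  unfold disc
  apply mul_ne_zero
  · rw [prod_ne_zero_iff]
    intro L hL
    have := (hT L hL).1
    omega
  · rw [prod_ne_zero_iff]
    intro q hq
    rw [mem_product] at hq
    split_ifs with h
    · exact one_ne_zero
    · exact res_ne (hT _ hq.1).1 (hT _ hq.1).2 (hT _ hq.2).1 (hT _ hq.2).2 h

lemma w_eq {T : Finset (ℕ × ℕ)} (hT : Prim T) {p : ℕ} (hp : p.Prime) (hd : ¬ p ∣ disc T) :
    w T p = T.card := by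
  classical
  -- the root of `L`
  have ha : ∀ L ∈ T, ¬ p ∣ L.1 := by
    intro L hL h
    apply hd
    unfold disc
    exact dvd_mul_of_dvd_left (h.trans (dvd_prod_of_mem _ hL)) _
  have hr : ∀ L ∈ T, ∀ L' ∈ T, L ≠ L' → ¬ p ∣ res L L' := by
    intro L hL L' hL' hne h
    apply hd
    unfold disc
    apply dvd_mul_of_dvd_right
    have h2 := dvd_prod_of_mem (fun q : (ℕ × ℕ) × (ℕ × ℕ) => if q.1 = q.2 then 1 else res q.1 q.2)
      (mem_product.2 ⟨hL, hL'⟩ : (L, L') ∈ T ×ˢ T)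
    simp only [if_neg hne] at h2
    exact h.trans h2
  have hex : ∀ L ∈ T, ∃ n < p, p ∣ L.1 * n + L.2 := by
    intro L hL
    have hc : Nat.Coprime L.1 p := by
      rw [Nat.coprime_comm, hp.coprime_iff_not_dvd]; exact ha L hL
    obtain ⟨m, hm⟩ := Nat.exists_mul_mod_eq_one_of_coprime hc hp.one_lt
    refine ⟨(m * (p * L.2 - L.2)) % p, Nat.mod_lt _ hp.pos, ?_⟩
    have h1 : L.1 * ((m * (p * L.2 - L.2)) % p) + L.2 ≡ L.1 * (m * (p * L.2 - L.2)) + L.2 [MOD p] :=
      ((Nat.mod_modEq _ _).mul_left _).add_right _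
    have h2 : L.1 * (m * (p * L.2 - L.2)) + L.2 ≡ 1 * (p * L.2 - L.2) + L.2 [MOD p] := by
      apply Nat.ModEq.add_right
      rw [← mul_assoc]
      apply Nat.ModEq.mul_right
      unfold Nat.ModEq
      rw [hm.2, Nat.mod_eq_of_lt hp.one_lt]
    have h3 : 1 * (p * L.2 - L.2) + L.2 = p * L.2 := by
      have : L.2 ≤ p * L.2 := Nat.le_mul_of_pos_left _ hp.pos
      omega
    rw [h3] at h2
    have h4 : p * L.2 ≡ 0 [MOD p] := Nat.modEq_zero_iff_dvd.2 (Dvd.intro _ rfl)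
    exact Nat.modEq_zero_iff_dvd.1 ((h1.trans h2).trans h4)
  choose! ρ hρ1 hρ2 using hex
  apply le_antisymm (w_le hT hp)
  unfold w
  apply card_le_card_of_injOn ρ
  · intro L hL
    rw [mem_coe] at hL
    rw [mem_coe, mem_filter, mem_range]
    exact ⟨hρ1 L hL, L, hL, hρ2 L hL⟩
  · intro L hL L' hL' he
    rw [mem_coe] at hL hL'
    by_contra hne
    apply hr L hL L' hL' hne
    have h1 := hρ2 L hL
    have h2 := hρ2 L' hL'
    rw [← he] at h2
    -- `L'.1 * (L.1 n + L.2) - L.1 * (L'.1 n + L'.2)`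
    have h3 : (p : ℤ) ∣ (L.1 : ℤ) * L'.2 - (L'.1 : ℤ) * L.2 := by
      have i1 : (p : ℤ) ∣ (L.1 : ℤ) * ρ L + L.2 := by exact_mod_cast Int.natCast_dvd_natCast.2 h1
      have i2 : (p : ℤ) ∣ (L'.1 : ℤ) * ρ L + L'.2 := by exact_mod_cast Int.natCast_dvd_natCast.2 h2
      have := dvd_sub (dvd_mul_of_dvd_right i2 (L.1 : ℤ)) (dvd_mul_of_dvd_right i1 (L'.1 : ℤ))
      have e : (L.1 : ℤ) * ((L'.1 : ℤ) * ρ L + L'.2) - (L'.1 : ℤ) * ((L.1 : ℤ) * ρ L + L.2) =
        (L.1 : ℤ) * L'.2 - (L'.1 : ℤ) * L.2 := by ring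
      rwa [e] at this
    have h4 : ((res L L' : ℕ) : ℤ) = |(L.1 : ℤ) * L'.2 - (L'.1 : ℤ) * L.2| := by
      unfold res
      rw [← Nat.cast_mul, ← Nat.cast_mul]
      rcases le_total (L.1 * L'.2) (L'.1 * L.2) with h | h
      · rw [Nat.dist_eq_sub_of_le h, Nat.cast_sub h, abs_of_nonpos]
        · push_cast; ring
        · have : ((L.1 * L'.2 : ℕ) : ℤ) ≤ ((L'.1 * L.2 : ℕ) : ℤ) := by exact_mod_cast h
          linarith
      · rw [Nat.dist_eq_sub_of_le_right h, Nat.cast_sub h, abs_of_nonneg]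
        have : ((L'.1 * L.2 : ℕ) : ℤ) ≤ ((L.1 * L'.2 : ℕ) : ℤ) := by exact_mod_cast h
        linarith
    have h5 : (p : ℤ) ∣ ((res L L' : ℕ) : ℤ) := by
      rw [h4]; exact (dvd_abs _ _).2 h3
    exact Int.natCast_dvd_natCast.1 h5

lemma loc_nonneg (T : Finset (ℕ × ℕ)) {p : ℕ} (hp : p.Prime) : 0 ≤ loc T p := by
  unfold loc
  have h1 := one_sub_pos hp
  have h2 : (w T p : ℝ) / p ≤ 1 := by
    rw [div_le_one (by exact_mod_cast hp.pos)]
    exact_mod_cast w_le_p T p
  have h3 : 0 ≤ 1 - (w T p : ℝ) / p := by linarith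
  positivity

lemma loc_le {T : Finset (ℕ × ℕ)} (hT : Prim T) {p : ℕ} (hp : p.Prime) :
    loc T p ≤ (if p ∣ disc T then (1 - 1 / (p : ℝ))⁻¹ else 1) ^ T.card := by
  have h1 := one_sub_pos hp
  split_ifs with h
  · unfold loc
    rw [inv_pow, div_le_iff₀ (by positivity), inv_mul_cancel₀ (by positivity)]
    have : 0 ≤ (w T p : ℝ) / p := by positivity
    linarith
  · rw [one_pow]
    unfold loc
    rw [w_eq hT hp h, div_le_one (by positivity)]
    have := one_add_mul_le_pow (a := -(1 / (p : ℝ))) (by linarith) T.card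
    have e1 : (1 : ℝ) + (T.card : ℝ) * -(1 / (p : ℝ)) = 1 - (T.card : ℝ) / p := by ring
    have e2 : (1 : ℝ) + -(1 / (p : ℝ)) = 1 - 1 / (p : ℝ) := by ring
    rw [e1, e2] at this
    exact this

lemma abs_generic (r : ℕ) {p : ℕ} (hp : p.Prime) (hr : r ≤ p) :
    |(1 - (r : ℝ) / p) / (1 - 1 / (p : ℝ)) ^ r - 1| ≤ (r : ℝ) ^ 2 * (1 / (p : ℝ) ^ 2) := by
  have h1 := one_sub_pos hp
  have hp0 : (0 : ℝ) < p := by exact_mod_cast hp.pos
  have hrp : (r : ℝ) / p ≤ 1 := by rw [div_le_one hp0]; exact_mod_cast hr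
  have e0 : (1 - (r : ℝ) / p) / (1 - 1 / (p : ℝ)) ^ r = ((1 - 1 / (p : ℝ))⁻¹) ^ r * (1 - (r : ℝ) / p) := by
    rw [inv_pow, inv_mul_eq_div]
  rw [e0]
  have hup : ((1 - 1 / (p : ℝ))⁻¹) ^ r * (1 - (r : ℝ) / p) ≤ 1 := by
    have := one_add_mul_le_pow (a := -(1 / (p : ℝ))) (by linarith) r
    have e1 : (1 : ℝ) + (r : ℝ) * -(1 / (p : ℝ)) = 1 - (r : ℝ) / p := by ring
    have e2 : (1 : ℝ) + -(1 / (p : ℝ)) = 1 - 1 / (p : ℝ) := by ring
    rw [e1, e2] at this
    rw [inv_pow, inv_mul_le_iff₀ (by positivity), mul_one]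
    exact this
  have hlow : 1 - (r : ℝ) ^ 2 * (1 / (p : ℝ) ^ 2) ≤ ((1 - 1 / (p : ℝ))⁻¹) ^ r * (1 - (r : ℝ) / p) := by
    have h3 : 1 + 1 / (p : ℝ) ≤ (1 - 1 / (p : ℝ))⁻¹ := by
      rw [← one_div, le_div_iff₀ h1]
      have : 0 ≤ (1 / (p : ℝ)) ^ 2 := by positivity
      nlinarith
    have h4 : 1 + (r : ℝ) / p ≤ ((1 - 1 / (p : ℝ))⁻¹) ^ r := by
      have h50 : (0 : ℝ) ≤ 1 / (p : ℝ) := by positivity
      have h5 := one_add_mul_le_pow (a := (1 / (p : ℝ))) (by linarith) r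
      calc 1 + (r : ℝ) / p = 1 + (r : ℝ) * (1 / (p : ℝ)) := by ring
        _ ≤ (1 + 1 / (p : ℝ)) ^ r := h5
        _ ≤ _ := pow_le_pow_left₀ (by positivity) h3 r
    calc 1 - (r : ℝ) ^ 2 * (1 / (p : ℝ) ^ 2) = (1 + (r : ℝ) / p) * (1 - (r : ℝ) / p) := by
          field_simp; ring
      _ ≤ _ := mul_le_mul_of_nonneg_right h4 (by linarith)
  rw [abs_le]
  constructor
  · linarith
  · have : (0 : ℝ) ≤ (r : ℝ) ^ 2 * (1 / (p : ℝ) ^ 2) := by positivity
    linarith

theorem summable_loc {T : Finset (ℕ × ℕ)} (hT : Prim T) : Summable (fun p : Nat.Primes => loc T p - 1) := by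
  have hg : Summable (fun p : Nat.Primes => (T.card : ℝ) ^ 2 * (1 / ((p : ℕ) : ℝ) ^ 2)) := by
    apply Summable.mul_left
    exact (Real.summable_one_div_nat_pow.2 (by norm_num : 1 < 2)).comp_injective
      (Subtype.val_injective)
  apply Summable.of_norm_bounded_eventually hg
  have hfin : {p : Nat.Primes | (p : ℕ) ≤ T.card + disc T}.Finite := by
    apply Set.Finite.of_finite_image (f := (fun p : Nat.Primes => (p : ℕ)))
    · apply (Set.finite_Iic (T.card + disc T)).subset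
      rintro _ ⟨p, hp, rfl⟩
      exact hp
    · exact Subtype.val_injective.injOn
  rw [Filter.eventually_cofinite]
  apply hfin.subset
  intro p hp
  simp only [Set.mem_ofPred_eq] at hp ⊢
  by_contra hcon
  push Not at hcon
  apply hp
  rw [Real.norm_eq_abs]
  have hd : ¬ (p : ℕ) ∣ disc T := by
    intro h
    have := Nat.le_of_dvd (Nat.pos_of_ne_zero (disc_ne hT)) h
    omega
  unfold loc
  rw [w_eq hT p.2 hd]
  exact abs_generic T.card p.2 (by omega)

theorem SL_hasProd {T : Finset (ℕ × ℕ)} (hT : Prim T) : HasProd (fun p : Nat.Primes => loc T p) (SL T) := by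
  have := Real.multipliable_one_add_of_summable (summable_loc hT)
  have h : Multipliable (fun p : Nat.Primes => loc T p) := by simpa using this
  exact h.hasProd

theorem SL_nonneg {T : Finset (ℕ × ℕ)} (hT : Prim T) : 0 ≤ SL T := by
  refine ge_of_tendsto (SL_hasProd hT) ?_
  filter_upwards with s
  exact prod_nonneg fun p _ => loc_nonneg T p.2

/-- the tail of the singular series -/
theorem SL_le {T : Finset (ℕ × ℕ)} (hT : Prim T) (y : ℕ) :
    SL T ≤ (∏ p ∈ (y + 1).primesBelow, loc T p) * tt y (disc T) ^ T.card := by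
  have hm := SL_hasProd hT
  set s0 : Finset Nat.Primes := (y + 1).primesBelow.preimage (fun p : Nat.Primes => (p : ℕ))
    Subtype.val_injective.injOn with hs0
  have hs0' : ∀ p : Nat.Primes, p ∈ s0 ↔ (p : ℕ) ≤ y := by
    intro p
    rw [hs0, mem_preimage, Nat.mem_primesBelow]
    constructor
    · rintro ⟨h, _⟩; omega
    · intro h; exact ⟨by omega, p.2⟩
  refine le_of_tendsto hm ?_
  filter_upwards [Filter.eventually_ge_atTop s0] with s hs
  have hsplit : ∏ p ∈ s, loc T (p : ℕ) =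
      (∏ p ∈ s0, loc T (p : ℕ)) * ∏ p ∈ s \ s0, loc T (p : ℕ) := by
    rw [mul_comm, prod_sdiff hs]
  rw [hsplit]
  have h1 : ∏ p ∈ s0, loc T (p : ℕ) = ∏ p ∈ (y + 1).primesBelow, loc T p := by
    rw [hs0]
    refine prod_preimage (fun p : Nat.Primes => (p : ℕ)) _ Subtype.val_injective.injOn
      (fun p : ℕ => loc T p) ?_
    intro p hp hp2
    exact absurd ⟨⟨p, Nat.prime_of_mem_primesBelow hp⟩, rfl⟩ hp2
  rw [h1]
  apply mul_le_mul_of_nonneg_left _ (prod_nonneg fun p hp => loc_nonneg T (Nat.prime_of_mem_primesBelow hp))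
  calc ∏ p ∈ s \ s0, loc T (p : ℕ) ≤
      ∏ p ∈ s \ s0, (if (p : ℕ) ∣ disc T then (1 - 1 / ((p : ℕ) : ℝ))⁻¹ else 1) ^ T.card :=
        prod_le_prod (fun p _ => loc_nonneg T p.2) (fun p _ => loc_le hT p.2)
    _ = (∏ p ∈ s \ s0, (if (p : ℕ) ∣ disc T then (1 - 1 / ((p : ℕ) : ℝ))⁻¹ else 1)) ^ T.card := by
        rw [prod_pow]
    _ ≤ tt y (disc T) ^ T.card := by
        apply pow_le_pow_left₀
        · apply prod_nonneg
          intro p _
          split_ifs
          · exact zero_le_one.trans (one_le_inv p.2)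
          · exact zero_le_one
        · rw [prod_ite, prod_const_one, mul_one]
          unfold tt
          have e : ∏ p ∈ (s \ s0).filter (fun p : Nat.Primes => (p : ℕ) ∣ disc T),
              (1 - 1 / ((p : ℕ) : ℝ))⁻¹ =
              ∏ p ∈ ((s \ s0).filter (fun p : Nat.Primes => (p : ℕ) ∣ disc T)).image
                (fun p : Nat.Primes => (p : ℕ)), (1 - 1 / (p : ℝ))⁻¹ := by
            rw [prod_image]
            intro x _ z _ hxz
            exact Subtype.val_injective hxz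
          rw [e]
          apply prod_mono_set
          · intro p hp
            obtain ⟨u, hu, rfl⟩ := mem_image.1 hp
            rw [mem_filter, Finset.mem_sdiff, hs0'] at hu
            rw [mem_filter, Nat.mem_primeFactors]
            exact ⟨⟨u.2, hu.2, disc_ne hT⟩, by omega⟩
          · intro p hp
            exact one_le_inv (Nat.prime_of_mem_primeFactors (mem_filter.1 hp).1)

/-- bound for the discriminant -/
lemma disc_le {T : Finset (ℕ × ℕ)} {M : ℕ} (hM : 1 ≤ M) (h : ∀ L ∈ T, L.1 ≤ M ∧ L.2 ≤ M) :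
    disc T ≤ (M ^ 2) ^ (T.card + T.card * T.card) := by
  unfold disc
  rw [pow_add]
  have hM2 : M ≤ M ^ 2 := by nlinarith
  have hM1 : 1 ≤ M ^ 2 := Nat.one_le_pow _ _ hM
  apply Nat.mul_le_mul
  · calc ∏ L ∈ T, L.1 ≤ ∏ _L ∈ T, M ^ 2 := prod_le_prod' fun L hL => (h L hL).1.trans hM2
      _ = _ := by rw [prod_const]
  · calc ∏ q ∈ T ×ˢ T, (if q.1 = q.2 then 1 else res q.1 q.2) ≤ ∏ _q ∈ T ×ˢ T, M ^ 2 := by
          apply prod_le_prod'
          intro q hq
          rw [mem_product] at hq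
          split_ifs
          · exact hM1
          · unfold res
            have h1 : q.1.1 * q.2.2 ≤ M * M := Nat.mul_le_mul (h _ hq.1).1 (h _ hq.2).2
            have h2 : q.2.1 * q.1.2 ≤ M * M := Nat.mul_le_mul (h _ hq.2).1 (h _ hq.1).2
            unfold Nat.dist
            rw [sq]
            omega
      _ = _ := by rw [prod_const, card_product]

end Pool.Agent.W218.MU
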