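import Mathlib
import Pool.Agent.W218.MU.Loc

set_option autoImplicit false

/-! The heart of the argument: Jensen in every class. -/

namespace Pool.Agent.W218.MU

open Finset Filter Topology Pool.Agent.H387R2 Pool.Agent.H386R2.HL

/-- double counting of `r`-subsets -/
lemma sum_choose' {ι α : Type*} (S : Finset ι) (A : Finset α) (r : ℕ) (Q : ι → α → Prop)
    [∀ n a, Decidable (Q n a)] :
    ∑ n ∈ S, ((A.filter (Q n)).card).choose r =
      ∑ T ∈ A.powersetCard r, (S.filter (fun n => ∀ t ∈ T, Q n t)).card := by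
  classical
  have h1 : ∀ n ∈ S, ((A.filter (Q n)).card).choose r =
      ∑ T ∈ A.powersetCard r, if (∀ t ∈ T, Q n t) then 1 else 0 := by
    intro n _
    rw [← card_powersetCard, ← card_filter]
    congr 1
    ext T
    simp only [mem_powersetCard, mem_filter, subset_iff]
    constructor
    · rintro ⟨h, h'⟩
      exact ⟨⟨fun t ht => (h ht).1, h'⟩, fun t ht => (h ht).2⟩
    · rintro ⟨⟨h, h'⟩, h2⟩
      exact ⟨fun t ht => ⟨h ht, h2 t ht⟩, h'⟩
  rw [sum_congr rfl h1, sum_comm]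
  apply sum_congr rfl
  intro T _
  rw [card_filter]

/-- number of forms of `A` prime at `n` -/
def XX (A : Finset (ℕ × ℕ)) (n : ℕ) : ℕ := (A.filter (fun L => (L.1 * n + L.2).Prime)).card

/-- the forms of `A` coprime to `W` in the class of `b` -/
def Ab (W : ℕ) (A : Finset (ℕ × ℕ)) (b : ℕ) : Finset (ℕ × ℕ) :=
  A.filter (fun L => Nat.Coprime W (L.1 * b + L.2))

/-- the number of `n ∈ [N, 2N)` at which all forms of `T` are prime -/
def cnt (N : ℕ) (T : Finset (ℕ × ℕ)) : ℕ :=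
  ((Ico N (2 * N)).filter (fun n => ∀ L ∈ T, (L.1 * n + L.2).Prime)).card

lemma sum_desc (A : Finset (ℕ × ℕ)) (k N : ℕ) :
    ∑ n ∈ Ico N (2 * N), (XX A n).descFactorial (k + 1) =
      (k + 1).factorial * ∑ T ∈ A.powersetCard (k + 1), cnt N T := by
  have h := sum_choose' (Ico N (2 * N)) A (k + 1) (fun n L => (L.1 * n + L.2).Prime)
  unfold cnt
  rw [← h, mul_sum]
  apply sum_congr rfl
  intro n _
  rw [Nat.descFactorial_eq_factorial_mul_choose]
  rfl

lemma sum_desc_g (A : Finset (ℕ × ℕ)) (k W : ℕ) :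
    ∑ b ∈ range W, (Ab W A b).card.descFactorial (k + 1) =
      (k + 1).factorial * ∑ T ∈ A.powersetCard (k + 1), g W T := by
  have h := sum_choose' (range W) A (k + 1) (fun b L => Nat.Coprime W (L.1 * b + L.2))
  unfold g
  rw [← h, mul_sum]
  apply sum_congr rfl
  intro n _
  rw [Nat.descFactorial_eq_factorial_mul_choose]
  rfl

/-- `∏_{p | a} (1 - 1/p)⁻¹ = a / φ(a)` -/
noncomputable def ra (a : ℕ) : ℝ := (a : ℝ) / Nat.totient a

lemma ra_eq {a : ℕ} (ha : 1 ≤ a) : ra a = ∏ p ∈ a.primeFactors, (1 - 1 / (p : ℝ))⁻¹ := by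
  unfold ra
  have h := Nat.totient_eq_mul_prod_factors a
  have h2 : (Nat.totient a : ℝ) = a * ∏ p ∈ a.primeFactors, (1 - (p : ℝ)⁻¹) := by
    have := congrArg (fun x : ℚ => (x : ℝ)) h
    push_cast at this
    exact this
  have ha0 : (a : ℝ) ≠ 0 := by exact_mod_cast (by omega : a ≠ 0)
  rw [h2, prod_inv_distrib]
  simp only [one_div]
  rw [div_mul_eq_div_div, div_self ha0, one_div]

/-- one form: classes mod `W` -/
lemma g_one {L : ℕ × ℕ} (h1 : 1 ≤ L.1) (h2 : Nat.Coprime L.1 L.2) (y : ℕ) {K : ℝ}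
    (hK : tt y L.1 ≤ K) :
    (Nat.totient (Uni.WW y) : ℝ) * ra L.1 ≤ K * g (Uni.WW y) {L} := by
  classical
  set W := Uni.WW y with hW
  have hWpos : 0 < W := Uni.WW_pos y
  have hW0 : (0:ℝ) < W := by exact_mod_cast hWpos
  have hg : (g W {L} : ℝ) = W * ∏ p ∈ (y + 1).primesBelow, (1 - (w {L} p : ℝ) / p) := by
    rw [prod_one_sub_w {L} _ (fun p hp => Nat.prime_of_mem_primesBelow hp)]
    change (g W {L} : ℝ) = W * ((g W {L} : ℝ) / (W : ℝ))
    field_simp
  have hφ : (Nat.totient W : ℝ) = W * ∏ p ∈ (y + 1).primesBelow, (1 - 1 / (p : ℝ)) := Uni.totient_WW y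
  have hsplit : ra L.1 = (∏ p ∈ L.1.primeFactors.filter (fun p => ¬ y < p), (1 - 1 / (p : ℝ))⁻¹) * tt y L.1 := by
    rw [ra_eq h1]
    unfold tt
    rw [mul_comm, prod_filter_mul_prod_filter_not]
  have hfac : (∏ p ∈ (y + 1).primesBelow, (1 - 1 / (p : ℝ))) *
      (∏ p ∈ L.1.primeFactors.filter (fun p => ¬ y < p), (1 - 1 / (p : ℝ))⁻¹) ≤
      ∏ p ∈ (y + 1).primesBelow, (1 - (w {L} p : ℝ) / p) := by
    have e : ∏ p ∈ L.1.primeFactors.filter (fun p => ¬ y < p), (1 - 1 / (p : ℝ))⁻¹ =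
        ∏ p ∈ (y + 1).primesBelow, if p ∣ L.1 then (1 - 1 / (p : ℝ))⁻¹ else 1 := by
      rw [prod_ite, prod_const_one, mul_one]
      apply prod_congr _ fun _ _ => rfl
      ext p
      rw [mem_filter, mem_filter, Nat.mem_primeFactors, Nat.mem_primesBelow]
      constructor
      · rintro ⟨⟨a1, a2, a3⟩, a4⟩
        exact ⟨⟨by omega, a1⟩, a2⟩
      · rintro ⟨⟨a1, a2⟩, a3⟩
        exact ⟨⟨a2, a3, by omega⟩, by omega⟩
    rw [e, ← prod_mul_distrib]
    apply Finset.prod_le_prod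
    · intro p hp
      have hpp := Nat.prime_of_mem_primesBelow hp
      have := one_sub_pos hpp
      have := one_le_inv hpp
      split_ifs <;> positivity
    · intro p hp
      have hpp := Nat.prime_of_mem_primesBelow hp
      have h3 := one_sub_pos hpp
      have hp0 : (0:ℝ) < p := by exact_mod_cast hpp.pos
      split_ifs with hd
      · rw [mul_inv_cancel₀ h3.ne']
        have hw : w {L} p = 0 := by
          unfold w
          rw [card_eq_zero, filter_eq_empty_iff]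
          rintro n _ ⟨L', hL', h4⟩
          rw [mem_singleton] at hL'
          subst hL'
          have h5 : p ∣ L'.2 := (Nat.dvd_add_right (dvd_mul_of_dvd_left hd n)).1 h4
          have h6 := Nat.dvd_gcd hd h5
          rw [h2] at h6
          exact hpp.one_lt.ne' (Nat.dvd_one.1 h6)
        rw [hw]
        simp
      · rw [mul_one]
        have hw : w {L} p ≤ 1 := by
          have := w_le (T := {L}) (fun L' hL' => by
            rw [mem_singleton] at hL'; subst hL'; exact ⟨h1, h2⟩) hpp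
          simpa using this
        have : (w {L} p : ℝ) / p ≤ 1 / p := by
          apply div_le_div_of_nonneg_right _ hp0.le
          exact_mod_cast hw
        linarith
  have htt := one_le_tt y L.1
  calc (Nat.totient W : ℝ) * ra L.1 = W * ((∏ p ∈ (y + 1).primesBelow, (1 - 1 / (p : ℝ))) *
        (∏ p ∈ L.1.primeFactors.filter (fun p => ¬ y < p), (1 - 1 / (p : ℝ))⁻¹)) * tt y L.1 := by
        rw [hφ, hsplit]; ring
    _ ≤ W * (∏ p ∈ (y + 1).primesBelow, (1 - (w {L} p : ℝ) / p)) * tt y L.1 := by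
        gcongr
    _ = g W {L} * tt y L.1 := by rw [hg]
    _ ≤ g W {L} * K := mul_le_mul_of_nonneg_left hK (Nat.cast_nonneg _)
    _ = K * g W {L} := mul_comm _ _

lemma sum_card_Ab (W : ℕ) (A : Finset (ℕ × ℕ)) :
    ∑ b ∈ range W, (Ab W A b).card = ∑ L ∈ A, g W {L} := by
  unfold Ab g
  simp_rw [card_filter]
  rw [sum_comm]
  apply sum_congr rfl
  intro L _
  apply sum_congr rfl
  intro b _
  simp

/-- the class condition: primes in the class of `b` -/
def CL (δ : ℝ) (N W M : ℕ) : Prop := ∀ (L : ℕ × ℕ), 1 ≤ L.1 → Nat.Coprime L.1 L.2 → L.1 ≤ M → L.2 ≤ M →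
  ∀ b : ℕ, Nat.Coprime W (L.1 * b + L.2) → (1 - 2 * δ) * (N / (Nat.totient W * Real.log N)) ≤
    (((Ico N (2 * N)).filter (fun n => n ≡ b [MOD W] ∧ (L.1 * n + L.2).Prime)).card : ℝ)

/-- the size condition -/
def SZ (δ : ℝ) (N W : ℕ) : Prop := ∀ b : ℕ,
  (1 - 2 * δ) * (N / W) ≤ (((Ico N (2 * N)).filter (fun n => n ≡ b [MOD W])).card : ℝ) ∧
  (((Ico N (2 * N)).filter (fun n => n ≡ b [MOD W])).card : ℝ) ≤ (1 + δ) * (N / W)

/-- the average of `X` over the class of `b` -/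
noncomputable def yb (δ : ℝ) (N W : ℕ) (A : Finset (ℕ × ℕ)) (b : ℕ) : ℝ :=
  Uni.c1 δ * (Ab W A b).card * (W / (Nat.totient W * Real.log N))

lemma yb_nonneg {δ : ℝ} {N : ℕ} (hδ : 0 < δ) (hδ1 : δ ≤ 1 / 4) (hL : 0 ≤ Real.log N) (W : ℕ)
    (A : Finset (ℕ × ℕ)) (b : ℕ) : 0 ≤ yb δ N W A b := by
  unfold yb Uni.c1
  have : 0 ≤ (1 - 2 * δ) / (1 + δ) := div_nonneg (by linarith) (by linarith)
  positivity

lemma class_mean {δ : ℝ} {N M W : ℕ} (hW : 0 < W) (hC : CL δ N W M) (hS : SZ δ N W) (hδ : 0 < δ)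
    (hδ1 : δ ≤ 1 / 4) (hL : 0 < Real.log N) {A : Finset (ℕ × ℕ)} (hp : Prim A)
    (hA : ∀ L ∈ A, L.1 ≤ M ∧ L.2 ≤ M) (b : ℕ) :
    yb δ N W A b * ((Ico N (2 * N)).filter (fun n => n ≡ b [MOD W])).card ≤
      ∑ n ∈ (Ico N (2 * N)).filter (fun n => n ≡ b [MOD W]), (XX A n : ℝ) := by
  classical
  set S := (Ico N (2 * N)).filter (fun n => n ≡ b [MOD W]) with hSd
  have hW0 : (0:ℝ) < W := by exact_mod_cast hW
  have hφ0 : (0:ℝ) < Nat.totient W := by exact_mod_cast Nat.totient_pos.2 hW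
  have h1 : ∑ n ∈ S, (XX A n : ℝ) = ∑ L ∈ A, ((S.filter (fun n => (L.1 * n + L.2).Prime)).card : ℝ) := by
    unfold XX
    simp_rw [card_filter]
    push_cast
    rw [sum_comm]
  have h2 : ∀ L ∈ Ab W A b, (1 - 2 * δ) * (N / (Nat.totient W * Real.log N)) ≤
      ((S.filter (fun n => (L.1 * n + L.2).Prime)).card : ℝ) := by
    intro L hLb
    unfold Ab at hLb
    rw [mem_filter] at hLb
    have := hC L (hp L hLb.1).1 (hp L hLb.1).2 (hA L hLb.1).1 (hA L hLb.1).2 b hLb.2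
    rw [hSd, filter_filter]
    exact this
  have h3 : ((Ab W A b).card : ℝ) * ((1 - 2 * δ) * (N / (Nat.totient W * Real.log N))) ≤
      ∑ n ∈ S, (XX A n : ℝ) := by
    rw [h1]
    calc ((Ab W A b).card : ℝ) * ((1 - 2 * δ) * (N / (Nat.totient W * Real.log N)))
        = ∑ _L ∈ Ab W A b, (1 - 2 * δ) * (N / (Nat.totient W * Real.log N)) := by
          rw [sum_const, nsmul_eq_mul]
      _ ≤ ∑ L ∈ Ab W A b, ((S.filter (fun n => (L.1 * n + L.2).Prime)).card : ℝ) := sum_le_sum h2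
      _ ≤ _ := sum_le_sum_of_subset_of_nonneg (filter_subset _ _) fun _ _ _ => Nat.cast_nonneg _
  refine le_trans ?_ h3
  have h4 := (hS b).2
  rw [← hSd] at h4
  refine (mul_le_mul_of_nonneg_left h4 (yb_nonneg hδ hδ1 hL.le _ _ _)).trans (le_of_eq ?_)
  unfold yb Uni.c1
  field_simp

/-- the heart of the argument -/
theorem heart {k : ℕ} {δ : ℝ} {N M y : ℕ} (hC : CL δ N (Uni.WW y) M) (hS : SZ δ N (Uni.WW y)) (hδ : 0 < δ)
    (hδ1 : δ ≤ 1 / 4) (hL : 0 < Real.log N) {lam : ℝ} (hlam : 0 < lam) {A : Finset (ℕ × ℕ)} (hp : Prim A)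
    (hA : ∀ L ∈ A, L.1 ≤ M ∧ L.2 ≤ M) (htt : ∀ L ∈ A, tt y L.1 ≤ 1 + δ)
    (hcard : lam * Real.log N ≤ ∑ L ∈ A, ra L.1) :
    (1 - 2 * δ) * (N / Uni.WW y) * (Uni.ph k (1 / (Uni.c1 δ * lam / (1 + δ))) *
      ((Uni.c1 δ * (Uni.WW y / (Nat.totient (Uni.WW y) * Real.log N))) ^ (k + 1) *
      ∑ T ∈ A.powersetCard (k + 1), (g (Uni.WW y) T : ℝ))) ≤
      ∑ T ∈ A.powersetCard (k + 1), (cnt N T : ℝ) := by
  classical
  set W := Uni.WW y with hWdef
  have hW : 0 < W := Uni.WW_pos y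
  have hW0 : (0:ℝ) < W := by exact_mod_cast hW
  have hφ0 : (0:ℝ) < Nat.totient W := by exact_mod_cast Nat.totient_pos.2 hW
  have hc1 : 0 < Uni.c1 δ := div_pos (by linarith) (by linarith)
  set μ := Uni.c1 δ * lam / (1 + δ) with hμ
  have hμ0 : 0 < μ := div_pos (mul_pos hc1 hlam) (by linarith)
  set Y := yb δ N W A with hY
  have hY0 : ∀ b, 0 ≤ Y b := yb_nonneg hδ hδ1 hL.le W A
  -- step 1 : sum over classes
  have s1 : ∑ b ∈ range W, ∑ n ∈ (Ico N (2 * N)).filter (fun n => n ≡ b [MOD W]),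
      ((XX A n).descFactorial (k + 1) : ℝ) = ∑ n ∈ Ico N (2 * N), ((XX A n).descFactorial (k + 1) : ℝ) := by
    rw [← sum_fiberwise_of_maps_to (s := Ico N (2 * N)) (t := range W) (g := fun n => n % W)
      (fun n _ => mem_range.2 (Nat.mod_lt _ hW))]
    apply sum_congr rfl
    intro b hb
    apply sum_congr _ fun _ _ => rfl
    apply filter_congr
    intro n _
    rw [Nat.ModEq, Nat.mod_eq_of_lt (mem_range.1 hb)]
  have s2 : ∀ b ∈ range W, (1 - 2 * δ) * (N / W) * Uni.GG k (Y b) ≤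
      ∑ n ∈ (Ico N (2 * N)).filter (fun n => n ≡ b [MOD W]), ((XX A n).descFactorial (k + 1) : ℝ) := by
    intro b _
    have h1 := Uni.jensen_desc _ (XX A) k (hY0 b) (class_mean hW hC hS hδ hδ1 hL hp hA b)
    refine le_trans ?_ h1
    exact mul_le_mul_of_nonneg_right (hS b).1 (Uni.GG_nonneg k (hY0 b))
  have s3 : (1 - 2 * δ) * (N / W) * ∑ b ∈ range W, Uni.GG k (Y b) ≤
      ((k + 1).factorial : ℝ) * ∑ T ∈ A.powersetCard (k + 1), (cnt N T : ℝ) := by
    have h1 := sum_desc A k N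
    have h2 : ∑ n ∈ Ico N (2 * N), ((XX A n).descFactorial (k + 1) : ℝ) =
      ((k + 1).factorial : ℝ) * ∑ T ∈ A.powersetCard (k + 1), (cnt N T : ℝ) := by exact_mod_cast h1
    rw [← h2, ← s1, mul_sum]
    exact sum_le_sum fun b hb => s2 b hb
  -- step 2 : mean
  have s4 : μ * (range W).card ≤ ∑ b ∈ range W, Y b := by
    have h2 : ∑ b ∈ range W, Y b = Uni.c1 δ * (∑ L ∈ A, (g W {L} : ℝ)) * (W / (Nat.totient W * Real.log N)) := by
      have h3 := sum_card_Ab W A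
      have h4 : ∑ b ∈ range W, ((Ab W A b).card : ℝ) = ∑ L ∈ A, (g W {L} : ℝ) := by exact_mod_cast h3
      rw [← h4, hY]
      unfold yb
      rw [mul_sum, sum_mul]
    have h5 : (Nat.totient W : ℝ) * ∑ L ∈ A, ra L.1 ≤ (1 + δ) * ∑ L ∈ A, (g W {L} : ℝ) := by
      rw [mul_sum, mul_sum]
      apply sum_le_sum
      intro L hLA
      exact g_one (hp L hLA).1 (hp L hLA).2 y (htt L hLA)
    have h6 : (Nat.totient W : ℝ) * (lam * Real.log N) / (1 + δ) ≤ ∑ L ∈ A, (g W {L} : ℝ) := by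
      rw [div_le_iff₀ (by linarith)]
      have : (Nat.totient W : ℝ) * (lam * Real.log N) ≤ (Nat.totient W : ℝ) * ∑ L ∈ A, ra L.1 :=
        mul_le_mul_of_nonneg_left hcard hφ0.le
      linarith
    rw [h2, card_range]
    have h7 : 0 ≤ (W : ℝ) / (Nat.totient W * Real.log N) := by positivity
    calc μ * W = Uni.c1 δ * ((Nat.totient W : ℝ) * (lam * Real.log N) / (1 + δ)) *
          (W / (Nat.totient W * Real.log N)) := by
          rw [hμ]
          have : 1 + δ ≠ 0 := by linarith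
          field_simp
      _ ≤ _ := by gcongr
  -- step 3 : the key inequality
  have s5 := Uni.key_ineq (range W) Y (fun b _ => hY0 b) k hμ0 s4
  have s6 : (Uni.c1 δ * (W / (Nat.totient W * Real.log N))) ^ (k + 1) *
      (((k + 1).factorial : ℝ) * ∑ T ∈ A.powersetCard (k + 1), (g W T : ℝ)) ≤ ∑ b ∈ range W, Y b ^ (k + 1) := by
    have h2 : ∑ b ∈ range W, ((Ab W A b).card.descFactorial (k + 1) : ℝ) =
      ((k + 1).factorial : ℝ) * ∑ T ∈ A.powersetCard (k + 1), (g W T : ℝ) := by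
      exact_mod_cast sum_desc_g A k W
    rw [← h2, mul_sum]
    apply sum_le_sum
    intro b _
    have h3 : ((Ab W A b).card.descFactorial (k + 1) : ℝ) ≤ ((Ab W A b).card : ℝ) ^ (k + 1) := by
      exact_mod_cast Nat.descFactorial_le_pow _ _
    have h4 : 0 ≤ Uni.c1 δ * (W / (Nat.totient W * Real.log N)) := by positivity
    calc (Uni.c1 δ * (W / (Nat.totient W * Real.log N))) ^ (k + 1) * ((Ab W A b).card.descFactorial (k + 1) : ℝ)
        ≤ (Uni.c1 δ * (W / (Nat.totient W * Real.log N))) ^ (k + 1) * ((Ab W A b).card : ℝ) ^ (k + 1) :=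
          mul_le_mul_of_nonneg_left h3 (pow_nonneg h4 _)
      _ = Y b ^ (k + 1) := by
          rw [← mul_pow, hY]
          unfold yb
          congr 1
          ring
  have hph := Uni.ph_nonneg k (1 / μ)
  have hfac : (0:ℝ) < (k + 1).factorial := by exact_mod_cast Nat.factorial_pos _
  have h12 : (0:ℝ) ≤ (1 - 2 * δ) * (N / W) := by
    have : (0:ℝ) ≤ 1 - 2 * δ := by linarith
    positivity
  have s7 : (1 - 2 * δ) * (N / W) * (Uni.ph k (1 / μ) * ((Uni.c1 δ * (W / (Nat.totient W * Real.log N))) ^ (k + 1) *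
      (((k + 1).factorial : ℝ) * ∑ T ∈ A.powersetCard (k + 1), (g W T : ℝ)))) ≤
      ((k + 1).factorial : ℝ) * ∑ T ∈ A.powersetCard (k + 1), (cnt N T : ℝ) := by
    refine le_trans ?_ s3
    apply mul_le_mul_of_nonneg_left _ h12
    refine le_trans ?_ s5
    exact mul_le_mul_of_nonneg_left s6 hph
  refine le_of_mul_le_mul_left ?_ hfac
  refine le_trans (le_of_eq ?_) s7
  ring

end Pool.Agent.W218.MU
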