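import Mathlib
import Pool.Agent.W218.MU.Heart
import Pool.Agent.H387R2.U8

set_option autoImplicit false

/-! Primes in the classes. -/

namespace Pool.Agent.W218.MU

open Finset Filter Topology Pool.Agent.H387R2

/-- the prime number theorem in progressions to moduli up to `(log x)^D` -/
theorem sw (D E : ℕ) : ∃ x0 : ℕ, ∀ x : ℕ, x0 ≤ x → ∀ q : ℕ, 1 ≤ q → (q : ℝ) ≤ Real.log x ^ D →
    ∀ a : ℕ, a < q → a.Coprime q → |H343E.piAP x q a - H343E.pi1 x / (Nat.totient q : ℝ)| ≤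
      x / Real.log x ^ E := by
  obtain ⟨B, x1, h⟩ := H343E.primes_of E (H343E.unsmoothed (E + 2))
  have hs := (Uni.log_pow_small (B + 2 * D : ℕ) (η := 1) one_pos)
  obtain ⟨x2, hx2⟩ := eventually_atTop.1 (tendsto_natCast_atTop_atTop.eventually
    (hs.and (eventually_ge_atTop (Real.exp 1))))
  refine ⟨max x1 x2, fun x hx q hq hqx a ha hac => ?_⟩
  obtain ⟨h1, h2⟩ := hx2 x ((le_max_right _ _).trans hx)
  have hlog : 1 ≤ Real.log x := by
    rw [← Real.log_exp 1]
    exact Real.log_le_log (Real.exp_pos _) h2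
  have hL0 : 0 < Real.log x := by linarith
  rw [one_mul, Real.rpow_natCast] at h1
  have hB : 0 < Real.log x ^ B := by positivity
  have hq0 : (0:ℝ) ≤ q := Nat.cast_nonneg q
  have hq4 : (q:ℝ) ^ 2 * Real.log x ^ B ≤ x := by
    calc (q:ℝ) ^ 2 * Real.log x ^ B ≤ (Real.log x ^ D) ^ 2 * Real.log x ^ B := by gcongr
      _ = Real.log x ^ (B + 2 * D) := by ring
      _ ≤ x := h1
  have hq1 : (1:ℝ) ≤ q := by exact_mod_cast hq
  classical
  have hmain := h x ((le_max_left _ _).trans hx) 1 le_rfl q (by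
      rw [le_div_iff₀ hB]
      refine le_trans ?_ hq4
      gcongr
      nlinarith) (by
      rw [one_mul, le_div_iff₀ hB]; exact hq4)
    (fun q' => if q' = q then {a} else ∅) ⟨by
      intro q' a' ha'
      beta_reduce at ha'
      split_ifs at ha' with hqq
      · rw [mem_singleton] at ha'
        rw [ha', hqq]
        exact ⟨ha, hac⟩
      · exact absurd ha' (notMem_empty _), by
      intro q'
      beta_reduce
      split_ifs
      · simp
      · simp⟩
  rw [one_mul] at hmain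
  have hq' : q ∈ Icc 1 q := mem_Icc.2 ⟨hq, le_rfl⟩
  have h3 := single_le_sum (f := fun q' => ∑ a' ∈ (if q' = q then ({a} : Finset ℕ) else ∅),
    |H343E.piAP x q' a' - H343E.pi1 x / (Nat.totient q' : ℝ)|)
    (fun i _ => sum_nonneg fun _ _ => abs_nonneg _) hq'
  beta_reduce at h3
  rw [if_pos rfl, sum_singleton] at h3
  exact h3.trans hmain

/-- the prime number theorem, upper bound -/
lemma pi1_upper {η : ℝ} (hη : 0 < η) : ∀ᶠ x : ℕ in atTop, H343E.pi1 x ≤ (1 + η) * (x / Real.log x) := by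
  have h := (Pool.Agent.Helper507.PNT.pi_tendsto.comp (tendsto_natCast_atTop_atTop (R := ℝ))).eventually
    (gt_mem_nhds (show 1 < 1 + η by linarith))
  filter_upwards [h, eventually_ge_atTop 3] with x hx hx3
  simp only [Function.comp, Nat.floor_natCast] at hx
  have hx0 : (0:ℝ) < x := by positivity
  have hL : 0 < Real.log x := Real.log_pos (by exact_mod_cast (by omega : 1 < x))
  rw [div_lt_iff₀ hx0] at hx
  rw [Uni.pi1_eq, mul_div_assoc', le_div_iff₀ hL]
  linarith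

lemma tot_le {a W : ℕ} (ha : 0 < a) (hW : 0 < W) :
    (Nat.totient (a * W) : ℝ) ≤ a * Nat.totient W := by
  have key : ∀ n : ℕ, (Nat.totient n : ℝ) = n * ∏ p ∈ n.primeFactors, (1 - (p : ℝ)⁻¹) := by
    intro n
    have := congrArg (fun x : ℚ => (x : ℝ)) (Nat.totient_eq_mul_prod_factors n)
    push_cast at this
    exact this
  rw [key, key W]
  have hsub : W.primeFactors ⊆ (a * W).primeFactors :=
    Nat.primeFactors_mono (Dvd.intro_left a rfl) (Nat.mul_pos ha hW).ne'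
  have hfac : ∀ p ∈ (a * W).primeFactors, 0 ≤ 1 - (p : ℝ)⁻¹ ∧ 1 - (p : ℝ)⁻¹ ≤ 1 := by
    intro p hp
    have hpp := Nat.prime_of_mem_primeFactors hp
    have h1 : (p : ℝ)⁻¹ ≤ 1 := inv_le_one_of_one_le₀ (by exact_mod_cast hpp.one_le)
    have h2 : 0 ≤ (p : ℝ)⁻¹ := by positivity
    constructor <;> linarith
  have h1 : ∏ p ∈ (a * W).primeFactors, (1 - (p : ℝ)⁻¹) ≤ ∏ p ∈ W.primeFactors, (1 - (p : ℝ)⁻¹) := by
    rw [← prod_sdiff hsub]
    have h2 : ∏ p ∈ (a * W).primeFactors \ W.primeFactors, (1 - (p : ℝ)⁻¹) ≤ 1 := by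
      apply Finset.prod_le_one
      · intro p hp; exact (hfac p (Finset.mem_sdiff.1 hp).1).1
      · intro p hp; exact (hfac p (Finset.mem_sdiff.1 hp).1).2
    have h3 : 0 ≤ ∏ p ∈ W.primeFactors, (1 - (p : ℝ)⁻¹) := prod_nonneg fun p hp => (hfac p (hsub hp)).1
    calc _ ≤ 1 * ∏ p ∈ W.primeFactors, (1 - (p : ℝ)⁻¹) := mul_le_mul_of_nonneg_right h2 h3
      _ = _ := one_mul _
  push_cast
  calc (a : ℝ) * W * ∏ p ∈ (a * W).primeFactors, (1 - (p : ℝ)⁻¹) ≤
      (a : ℝ) * W * ∏ p ∈ W.primeFactors, (1 - (p : ℝ)⁻¹) := mul_le_mul_of_nonneg_left h1 (by positivity)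
    _ = _ := by ring

/-- counting the `n` through the primes `a n + h` -/
lemma count_low {a h N W b : ℕ} (ha : 1 ≤ a) (hW : 0 < W) :
    H343E.piAP (a * (2 * N - 1) + h) (a * W) ((a * b + h) % (a * W)) ≤
      (((Ico N (2 * N)).filter (fun n => n ≡ b [MOD W] ∧ (a * n + h).Prime)).card : ℝ) +
        H343E.piAP (a * N + h) (a * W) ((a * b + h) % (a * W)) := by
  classical
  unfold H343E.piAP
  rw [← Nat.cast_add]
  apply Nat.cast_le.2
  have hsub : (Icc 1 (a * (2 * N - 1) + h)).filter (fun p => p.Prime ∧ p ≡ (a * b + h) % (a * W) [MOD a * W]) ⊆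
      ((Ico N (2 * N)).filter (fun n => n ≡ b [MOD W] ∧ (a * n + h).Prime)).image (fun n => a * n + h) ∪
      (Icc 1 (a * N + h)).filter (fun p => p.Prime ∧ p ≡ (a * b + h) % (a * W) [MOD a * W]) := by
    intro p hp
    rw [mem_filter, mem_Icc] at hp
    obtain ⟨⟨hp1, hp2⟩, hp3, hp4⟩ := hp
    rw [mem_union]
    by_cases hle : p ≤ a * N + h
    · right
      rw [mem_filter, mem_Icc]
      exact ⟨⟨hp1, hle⟩, hp3, hp4⟩
    · left
      push Not at hle
      have h5 : p ≡ a * b + h [MOD a * W] := hp4.trans (Nat.mod_modEq _ _)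
      have h6 : p ≡ a * b + h [MOD a] := Nat.ModEq.of_mul_right W h5
      have h7 : a ∣ p - h := by
        have h8 : h ≡ p [MOD a] := by
          refine Nat.ModEq.trans ?_ h6.symm
          have : a * b + h ≡ 0 + h [MOD a] :=
            Nat.ModEq.add_right h (Nat.modEq_zero_iff_dvd.2 (Dvd.intro b rfl))
          rw [zero_add] at this
          exact this.symm
        exact (Nat.modEq_iff_dvd' (by omega)).1 h8
      obtain ⟨n, hn⟩ := h7
      have hpn : p = a * n + h := by omega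
      rw [mem_image]
      refine ⟨n, ?_, hpn.symm⟩
      rw [mem_filter, mem_Ico]
      have h9 : N < n := by
        have : a * N < a * n := by omega
        exact lt_of_mul_lt_mul_left this (Nat.zero_le a)
      have h10 : n ≤ 2 * N - 1 := by
        have : a * n ≤ a * (2 * N - 1) := by omega
        exact Nat.le_of_mul_le_mul_left this (by omega)
      refine ⟨⟨h9.le, by omega⟩, ?_, by rw [← hpn]; exact hp3⟩
      have h11 : a * n ≡ a * b [MOD a * W] := by
        rw [hpn] at h5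
        exact Nat.ModEq.add_right_cancel' h h5
      exact Nat.ModEq.mul_left_cancel' (by omega) h11
  refine (card_le_card hsub).trans ((card_union_le _ _).trans ?_)
  exact Nat.add_le_add_right card_image_le _

/-- the size condition -/
lemma SZ_of {δ : ℝ} {N W : ℕ} (hW : 0 < W) (hN : 1 ≤ N) (hδ : 0 < δ) (h : (W : ℝ) ≤ δ * N) : SZ δ N W := by
  intro b
  have e : Ico N (2 * N) = Ioc (N - 1) (2 * N - 1) := by
    ext n; rw [mem_Ico, mem_Ioc]; omega
  have hW0 : (0:ℝ) < W := by exact_mod_cast hW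
  rw [e]
  obtain ⟨h1, h2⟩ := Uni.size_bounds (N - 1) (2 * N - 1) b hW (by omega)
  have e1 : (((2 * N - 1 : ℕ) : ℝ) - ((N - 1 : ℕ) : ℝ)) = N := by
    rw [Nat.cast_sub (by omega), Nat.cast_sub hN]; push_cast; ring
  rw [e1] at h1 h2
  have h3 : (1:ℝ) ≤ δ * (N / W) := by
    rw [mul_div_assoc', le_div_iff₀ hW0, one_mul]; exact h
  constructor
  · refine le_trans ?_ h1
    have : 0 ≤ δ * ((N:ℝ) / W) := by positivity
    linarith
  · refine h2.trans ?_
    linarith

lemma final_arith {η L Z P0 P1 X0 X1 l0 l1 : ℝ} (hη : 0 < η) (hη1 : η ≤ 1 / 8) (hL : 0 < L) (hZ : 0 < Z)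
    (h0 : P0 ≤ (1 + η) * (X0 / l0)) (h1 : (1 - η) * (X1 / l1) ≤ P1) (hX0 : X0 ≤ (1 + η) * Z)
    (hX1 : (2 - η) * Z ≤ X1) (hl0 : L ≤ l0) (hl1 : l1 ≤ (1 + η) * L) (hl1' : 0 < l1) :
    (1 - 8 * η) * (Z / L) ≤ P1 - P0 := by
  have a0 : X0 / l0 ≤ (1 + η) * (Z / L) := by
    rw [← mul_div_assoc]
    apply div_le_div₀ (by positivity) hX0 hL hl0
  have a1 : (2 - η) * Z / ((1 + η) * L) ≤ X1 / l1 := by
    apply div_le_div₀ _ hX1 hl1' hl1
    have : 0 ≤ (2 - η) * Z := by
      apply mul_nonneg _ hZ.le; linarith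
    linarith
  have a2 : (2 - η) * Z / ((1 + η) * L) = (2 - η) / (1 + η) * (Z / L) := by
    rw [mul_div_mul_comm]
  have a3 : 2 - 3 * η ≤ (2 - η) / (1 + η) := by
    rw [le_div_iff₀ (by linarith)]
    nlinarith
  have hZL : 0 < Z / L := by positivity
  have a4 : (1 - η) * ((2 - 3 * η) * (Z / L)) ≤ P1 := by
    refine le_trans ?_ h1
    apply mul_le_mul_of_nonneg_left _ (by linarith)
    refine le_trans ?_ a1
    rw [a2]
    exact mul_le_mul_of_nonneg_right a3 hZL.le
  have a5 : P0 ≤ (1 + η) * ((1 + η) * (Z / L)) :=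
    h0.trans (mul_le_mul_of_nonneg_left a0 (by linarith))
  have a6 : (1 - 8 * η) ≤ (1 - η) * (2 - 3 * η) - (1 + η) * (1 + η) := by nlinarith
  calc (1 - 8 * η) * (Z / L) ≤ ((1 - η) * (2 - 3 * η) - (1 + η) * (1 + η)) * (Z / L) :=
        mul_le_mul_of_nonneg_right a6 hZL.le
    _ = (1 - η) * ((2 - 3 * η) * (Z / L)) - (1 + η) * ((1 + η) * (Z / L)) := by ring
    _ ≤ P1 - P0 := by linarith

end Pool.Agent.W218.MU
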