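import Mathlib
import Pool.Agent.W218.MU.Class

set_option autoImplicit false

/-! Primes in the classes: all conditions hold for large `N`. -/

namespace Pool.Agent.W218.MU

open Finset Filter Topology Pool.Agent.H387R2

set_option maxHeartbeats 4000000 in
theorem CL_eventually (C : ℝ) (hC : 0 ≤ C) {δ : ℝ} (hδ : 0 < δ) (hδ1 : δ ≤ 1 / 4) :
    ∀ᶠ N : ℕ in atTop, CL δ N (Uni.WW ⌊Real.log (Real.log N)⌋₊) ⌊Real.log N ^ C⌋₊ := by
  set η : ℝ := δ / 8 with hη
  have hη0 : 0 < η := by positivity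
  have hη1 : η ≤ 1 / 8 := by rw [hη]; linarith
  set D : ℕ := ⌈C⌉₊ + 2 with hD
  set E : ℕ := ⌈C⌉₊ + 5 with hE
  obtain ⟨x0, hsw⟩ := sw D E
  obtain ⟨x1, hpi⟩ := eventually_atTop.1 ((Uni.pi1_lower hη0).and (pi1_upper hη0))
  have tN : Tendsto (fun N : ℕ => (N : ℝ)) atTop atTop := tendsto_natCast_atTop_atTop
  have tL : Tendsto (fun N : ℕ => Real.log (N : ℝ)) atTop atTop := Real.tendsto_log_atTop.comp tN
  filter_upwards [eventually_ge_atTop x0, eventually_ge_atTop x1,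
    tN.eventually (Uni.log_pow_small C (η := η) hη0),
    tL.eventually (Uni.log_pow_small 1 (η := η / (2 * (C + 1))) (by positivity)),
    tL.eventually_ge_atTop (max (4 / η) (5 / δ)), Uni.par_eventually 0 C hδ (by linarith) 1]
    with N g0 g1 g2 g3 g4 g5
  set L := Real.log (N : ℝ) with hLd
  set W := Uni.WW ⌊Real.log L⌋₊ with hW
  have hL4 : 4 / η ≤ L := (le_max_left _ _).trans g4
  have hL5 : 5 / δ ≤ L := (le_max_right _ _).trans g4
  have hL32 : 32 ≤ L := by
    refine le_trans ?_ hL4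
    rw [le_div_iff₀ hη0]; linarith
  have hL0 : 0 < L := by linarith
  have hL1 : 1 ≤ L := by linarith
  have hN0 : (0:ℝ) < N := by
    by_contra h
    have h0 : (N:ℝ) = 0 := le_antisymm (not_lt.1 h) (Nat.cast_nonneg N)
    rw [hLd, h0, Real.log_zero] at hL1
    linarith
  have hNpos : 0 < N := by exact_mod_cast hN0
  have hWpos : 0 < W := Uni.WW_pos _
  have hW0 : (0:ℝ) < W := by exact_mod_cast hWpos
  have hW2 : (W : ℝ) ≤ L ^ 2 := g5.hW2
  rw [Real.rpow_one] at g3
  have hCL : C * Real.log L ≤ η / 2 * L := by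
    have h1 : C * Real.log L ≤ C * (η / (2 * (C + 1)) * L) := mul_le_mul_of_nonneg_left g3 hC
    refine h1.trans ?_
    have h2 : C * (η / (2 * (C + 1)) * L) = (C / (C + 1)) * (η / 2 * L) := by field_simp
    rw [h2]
    have h3 : C / (C + 1) ≤ 1 := by rw [div_le_one (by linarith)]; linarith
    calc C / (C + 1) * (η / 2 * L) ≤ 1 * (η / 2 * L) := mul_le_mul_of_nonneg_right h3 (by positivity)
      _ = _ := one_mul _
  have h2L : 2 ≤ η / 2 * L := by
    rw [div_le_iff₀ hη0] at hL4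
    linarith
  have hLC1 : 1 ≤ L ^ C := Real.one_le_rpow hL1 hC
  have hLCc : L ^ C ≤ L ^ ⌈C⌉₊ := by
    rw [← Real.rpow_natCast]
    exact Real.rpow_le_rpow_of_exponent_le hL1 (Nat.le_ceil C)
  intro Lf ha hcop haM hhM b hb
  obtain ⟨a, h⟩ := Lf
  simp only at ha hcop haM hhM hb ⊢
  have haC : (a:ℝ) ≤ L ^ C := (by exact_mod_cast haM : (a:ℝ) ≤ (⌊L ^ C⌋₊ : ℕ)).trans (Nat.floor_le (by positivity))
  have hhC : (h:ℝ) ≤ L ^ C := (by exact_mod_cast hhM : (h:ℝ) ≤ (⌊L ^ C⌋₊ : ℕ)).trans (Nat.floor_le (by positivity))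
  have har : (1:ℝ) ≤ a := by exact_mod_cast ha
  have ha0 : (0:ℝ) < a := by linarith
  set Z : ℝ := a * N with hZ
  have hZ0 : 0 < Z := by positivity
  have hZN : (N:ℝ) ≤ Z := by rw [hZ]; nlinarith
  set X0 : ℕ := a * N + h with hX0
  set X1 : ℕ := a * (2 * N - 1) + h with hX1
  have hX0r : (X0 : ℝ) = Z + h := by rw [hX0, hZ]; push_cast; ring
  have hX1r : (X1 : ℝ) = 2 * Z - a + h := by
    rw [hX1, hZ]
    push_cast [Nat.cast_sub (show 1 ≤ 2 * N by omega)]
    ring
  have hηZ : (h:ℝ) ≤ η * Z := hhC.trans (g2.trans (mul_le_mul_of_nonneg_left hZN hη0.le))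
  have hh0 : (0:ℝ) ≤ h := Nat.cast_nonneg h
  have h1ηN : 1 ≤ η * N := hLC1.trans g2
  have b1 : (X0 : ℝ) ≤ (1 + η) * Z := by rw [hX0r]; linarith
  have b2 : (2 - η) * Z ≤ X1 := by
    rw [hX1r]
    have : (a:ℝ) ≤ η * Z := by
      calc (a:ℝ) = a * 1 := (mul_one _).symm
        _ ≤ a * (η * N) := mul_le_mul_of_nonneg_left h1ηN ha0.le
        _ = η * Z := by rw [hZ]; ring
    linarith
  have b3 : (N:ℝ) ≤ X0 := by rw [hX0r]; linarith
  have b4 : (X1 : ℝ) ≤ 3 * Z := by
    rw [hX1r]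
    have : η * Z ≤ 1 * Z := mul_le_mul_of_nonneg_right (by linarith) hZ0.le
    linarith
  have b5 : (N:ℝ) ≤ X1 := by
    have : 1 * Z ≤ (2 - η) * Z := mul_le_mul_of_nonneg_right (by linarith) hZ0.le
    linarith
  have hl0 : L ≤ Real.log X0 := Real.log_le_log hN0 b3
  have hl1' : L ≤ Real.log X1 := Real.log_le_log hN0 b5
  have hl1 : Real.log X1 ≤ (1 + η) * L := by
    have h1 : Real.log X1 ≤ Real.log (3 * (L ^ C * N)) := by
      apply Real.log_le_log (by linarith)
      refine b4.trans ?_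
      rw [hZ]
      gcongr
    rw [Real.log_mul (by norm_num) (by positivity), Real.log_mul (by positivity) hN0.ne',
      Real.log_rpow hL0] at h1
    have h3 : Real.log 3 ≤ 2 := by
      have := Real.log_le_sub_one_of_pos (show (0:ℝ) < 3 by norm_num)
      linarith
    linarith
  obtain ⟨p1, p2⟩ := hpi X0 (g1.trans (by exact_mod_cast b3))
  obtain ⟨p3, p4⟩ := hpi X1 (g1.trans (by exact_mod_cast b5))
  have key := final_arith hη0 hη1 hL0 hZ0 p2 p3 b1 b2 hl0 hl1 (by linarith)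
  -- the modulus
  set q : ℕ := a * W with hq
  have hq1 : 1 ≤ q := Nat.mul_pos ha hWpos
  have hq0 : (0:ℝ) < q := by exact_mod_cast hq1
  have hqL : (q : ℝ) ≤ L ^ D := by
    rw [hq]
    push_cast
    calc (a : ℝ) * W ≤ L ^ ⌈C⌉₊ * L ^ 2 := by
          apply mul_le_mul (haC.trans hLCc) hW2 hW0.le (by positivity)
      _ = L ^ D := by rw [hD, pow_add]
  have hcc : Nat.Coprime (a * b + h) q := by
    rw [hq]
    apply Nat.Coprime.mul_right
    · have : (a * b + h).gcd a = h.gcd a := by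
        rw [Nat.gcd_comm, Nat.gcd_comm h a, Nat.gcd_mul_left_add_right]
      unfold Nat.Coprime
      rw [this, Nat.gcd_comm]
      exact hcop
    · exact hb.symm
  have hrq : (a * b + h) % q < q := Nat.mod_lt _ hq1
  have hrc : ((a * b + h) % q).Coprime q := by
    unfold Nat.Coprime
    rw [← Nat.gcd_rec, Nat.gcd_comm]
    exact hcc
  have s0 := hsw X0 (g0.trans (by exact_mod_cast b3)) q hq1
    (hqL.trans (pow_le_pow_left₀ hL0.le hl0 D)) _ hrq hrc
  have s1 := hsw X1 (g0.trans (by exact_mod_cast b5)) q hq1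
    (hqL.trans (pow_le_pow_left₀ hL0.le hl1' D)) _ hrq hrc
  have c := count_low (a := a) (h := h) (N := N) (W := W) (b := b) ha hWpos
  rw [← hX1, ← hX0, ← hq] at c
  have e0 : (X0 : ℝ) / Real.log X0 ^ E ≤ 2 * Z / L ^ E := by
    apply div_le_div₀ (by positivity) _ (by positivity) (pow_le_pow_left₀ hL0.le hl0 E)
    have : η * Z ≤ 1 * Z := mul_le_mul_of_nonneg_right (by linarith) hZ0.le
    linarith
  have e1 : (X1 : ℝ) / Real.log X1 ^ E ≤ 3 * Z / L ^ E :=
    div_le_div₀ (by positivity) b4 (by positivity) (pow_le_pow_left₀ hL0.le hl1' E)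
  have hφ0 : (0:ℝ) < Nat.totient q := by exact_mod_cast Nat.totient_pos.2 hq1
  have hφq : (Nat.totient q : ℝ) ≤ L ^ D := (by exact_mod_cast Nat.totient_le q : (Nat.totient q : ℝ) ≤ q).trans hqL
  have t0 := (abs_le.1 s0).2
  have t1 := (abs_le.1 s1).1
  have t2 : (1 - 8 * η) * (Z / L) / Nat.totient q ≤
      H343E.pi1 X1 / Nat.totient q - H343E.pi1 X0 / Nat.totient q := by
    rw [← sub_div]
    exact div_le_div_of_nonneg_right key hφ0.le
  have t3 : 5 * Z / L ^ E ≤ δ * ((Z / L) / Nat.totient q) := by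
    rw [div_div, mul_div_assoc', div_le_div_iff₀ (by positivity) (by positivity)]
    have h5 : 5 ≤ δ * L ^ 2 := by
      rw [div_le_iff₀ hδ] at hL5
      nlinarith
    calc 5 * Z * (L * Nat.totient q) ≤ 5 * Z * (L * L ^ D) := by gcongr
      _ ≤ (δ * L ^ 2) * Z * (L * L ^ D) := by gcongr
      _ = δ * Z * L ^ E := by
          rw [hD, hE]
          ring
  have t4 : (1 - 2 * δ) * ((Z / L) / Nat.totient q) ≤
      (((Ico N (2 * N)).filter (fun n => n ≡ b [MOD W] ∧ (a * n + h).Prime)).card : ℝ) := by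
    have e : (1 - 8 * η) * (Z / L) / Nat.totient q = (1 - δ) * ((Z / L) / Nat.totient q) := by
      rw [hη]; ring
    have e5 : 2 * Z / L ^ E + 3 * Z / L ^ E = 5 * Z / L ^ E := by ring
    linarith
  refine le_trans ?_ t4
  apply mul_le_mul_of_nonneg_left _ (by linarith)
  have hφW : (0:ℝ) < Nat.totient W := by exact_mod_cast Nat.totient_pos.2 hWpos
  have hfin : (Nat.totient q : ℝ) ≤ a * Nat.totient W := tot_le ha hWpos
  rw [div_div Z L, div_le_div_iff₀ (mul_pos hφW hL0) (mul_pos hL0 hφ0)]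
  calc (N : ℝ) * (L * Nat.totient q) ≤ N * (L * (a * Nat.totient W)) := by gcongr
    _ = Z * (Nat.totient W * L) := by rw [hZ]; ring

end Pool.Agent.W218.MU
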