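import Mathlib
import Pool.Agent.W218.MU.Class2
import Pool.Agent.H387R2.MB15

set_option autoImplicit false

/-! The universal lower bound for sets of linear forms. -/

namespace Pool.Agent.W218.MU

open Finset Filter Topology Pool.Agent.H387R2 Pool.Agent.H386R2.HL

theorem boundL {k : ℕ} {δ : ℝ} {N M y : ℕ} (hC : CL δ N (Uni.WW y) M) (hS : SZ δ N (Uni.WW y)) (hδ : 0 < δ)
    (hδ1 : δ ≤ 1 / 4) (hL : 0 < Real.log N) {lam : ℝ} (hlam : 0 < lam) {A : Finset (ℕ × ℕ)} (hp : Prim A)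
    (hA : ∀ L ∈ A, L.1 ≤ M ∧ L.2 ≤ M) (htt : ∀ L ∈ A, tt y L.1 ≤ 1 + δ)
    (htd : ∀ T ∈ A.powersetCard (k + 1), tt y (disc T) ≤ 1 + δ)
    (hcard : lam * Real.log N ≤ ∑ L ∈ A, ra L.1) :
    Uni.FF k lam δ * (N / Real.log N ^ (k + 1)) * ∑ T ∈ A.powersetCard (k + 1), SL T ≤
      ∑ T ∈ A.powersetCard (k + 1), (cnt N T : ℝ) := by
  classical
  have h1 := heart (k := k) hC hS hδ hδ1 hL hlam hp hA htt hcard
  set W := Uni.WW y with hWdef
  have hW : 0 < W := Uni.WW_pos y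
  have hW0 : (0:ℝ) < W := by exact_mod_cast hW
  have hφ0 : (0:ℝ) < Nat.totient W := by exact_mod_cast Nat.totient_pos.2 hW
  have hc1 : 0 < Uni.c1 δ := div_pos (by linarith) (by linarith)
  refine le_trans ?_ h1
  set K := (1 + δ) ^ ((k + 1) * (k + 1)) with hK
  have hK0 : 0 < K := pow_pos (by linarith) _
  have h3 : ∑ T ∈ A.powersetCard (k + 1), SL T ≤
      K * (((W : ℝ) / Nat.totient W) ^ (k + 1) * (1 / W)) * ∑ T ∈ A.powersetCard (k + 1), (g W T : ℝ) := by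
    rw [mul_sum]
    apply sum_le_sum
    intro T hT
    have hT' := mem_powersetCard.1 hT
    have hpT : Prim T := fun L hLT => hp L (hT'.1 hLT)
    have h4 := SL_le hpT y
    rw [trunc_eq, hT'.2, ← hWdef] at h4
    refine h4.trans ?_
    have h5 : tt y (disc T) ^ (k + 1) ≤ K := by
      calc tt y (disc T) ^ (k + 1) ≤ (1 + δ) ^ (k + 1) :=
            pow_le_pow_left₀ (zero_le_one.trans (one_le_tt _ _)) (htd T hT) _
        _ ≤ (1 + δ) ^ ((k + 1) * (k + 1)) := pow_le_pow_right₀ (by linarith) (Nat.le_mul_of_pos_left _ (by omega))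
    calc ((W : ℝ) / Nat.totient W) ^ (k + 1) * (g W T / W) * tt y (disc T) ^ (k + 1)
        ≤ ((W : ℝ) / Nat.totient W) ^ (k + 1) * (g W T / W) * K := by gcongr
      _ = _ := by ring
  have hph := Uni.ph_nonneg k (1 / (Uni.c1 δ * lam / (1 + δ)))
  set P := Uni.ph k (1 / (Uni.c1 δ * lam / (1 + δ))) with hPdef
  have h12 : (0:ℝ) ≤ 1 - 2 * δ := by linarith
  have hN0 : (0:ℝ) ≤ N := Nat.cast_nonneg N
  have hcoef : 0 ≤ Uni.FF k lam δ * (N / Real.log N ^ (k + 1)) := by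
    unfold Uni.FF
    rw [← hPdef]
    positivity
  refine (mul_le_mul_of_nonneg_left h3 hcoef).trans (le_of_eq ?_)
  unfold Uni.FF
  rw [← hPdef, ← hK]
  have e1 : (1 - 2 * δ) * P * Uni.c1 δ ^ (k + 1) / K * (N / Real.log N ^ (k + 1)) *
      (K * (((W : ℝ) / Nat.totient W) ^ (k + 1) * (1 / W)) * ∑ T ∈ A.powersetCard (k + 1), (g W T : ℝ)) =
      (K / K) * ((1 - 2 * δ) * (N / W) * (P * ((Uni.c1 δ ^ (k + 1) * (((W : ℝ) / Nat.totient W) ^ (k + 1)
        / Real.log N ^ (k + 1))) * ∑ T ∈ A.powersetCard (k + 1), (g W T : ℝ)))) := by ring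
  rw [e1, div_self hK0.ne', one_mul]
  congr 3
  rw [mul_pow, ← div_pow, div_div]

/-- **Universal lower bound for sets of linear forms** -/
theorem universalL (k : ℕ) (lam θ C : ℝ) (hlam : (k : ℝ) < lam) (hC : 0 ≤ C)
    (hθ : θ < ∏ i ∈ range k, (1 - (i + 1 : ℝ) / lam)) :
    ∃ N₀ : ℕ, ∀ N : ℕ, N₀ ≤ N → ∀ A : Finset (ℕ × ℕ), Prim A →
      (∀ L ∈ A, (L.1 : ℝ) ≤ Real.log N ^ C ∧ (L.2 : ℝ) ≤ Real.log N ^ C) →
      lam * Real.log N ≤ ∑ L ∈ A, ra L.1 →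
      θ * (N / Real.log N ^ (k + 1)) * ∑ T ∈ A.powersetCard (k + 1), SL T ≤
        ∑ T ∈ A.powersetCard (k + 1), (cnt N T : ℝ) := by
  have hlam0 : 0 < lam := lt_of_le_of_lt (Nat.cast_nonneg k) hlam
  rw [← Uni.ph_eq k hlam] at hθ
  have h3 := (Uni.FF_tendsto k hlam0).eventually (lt_mem_nhds hθ)
  obtain ⟨r, hr, h4⟩ := Metric.eventually_nhds_iff.1 h3
  set δ := min (r / 2) (1 / 4) with hδdef
  have hδ : 0 < δ := lt_min (by positivity) (by norm_num)
  have hδ1 : δ ≤ 1 / 4 := min_le_right _ _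
  have hδr : δ < r := lt_of_le_of_lt (min_le_left _ _) (by linarith)
  have h5 : θ < Uni.FF k lam δ := h4 (by
    rw [Real.dist_eq, sub_zero, abs_of_pos hδ]; exact hδr)
  set m : ℕ := (k + 1) + (k + 1) * (k + 1) with hm
  have hm1 : 1 ≤ m := by omega
  have tN : Tendsto (fun N : ℕ => (N : ℝ)) atTop atTop := tendsto_natCast_atTop_atTop
  have tL : Tendsto (fun N : ℕ => Real.log (N : ℝ)) atTop atTop := Real.tendsto_log_atTop.comp tN
  rw [← eventually_atTop]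
  filter_upwards [CL_eventually C hC hδ hδ1, Uni.par_eventually k (C * (2 * m : ℕ)) hδ (by linarith) 1,
    tL.eventually_ge_atTop 1, eventually_ge_atTop 1] with N hCL hP hL1 hN1
  intro A hpA hA hcard
  set L := Real.log (N:ℝ) with hLd
  have hL0 : 0 < L := by linarith
  set M : ℕ := ⌊L ^ C⌋₊ with hM
  set y : ℕ := ⌊Real.log L⌋₊ with hy
  have hLC1 : 1 ≤ L ^ C := Real.one_le_rpow hL1 hC
  have hM1 : 1 ≤ M := Nat.le_floor (by simpa using hLC1)
  have hAM : ∀ Lf ∈ A, Lf.1 ≤ M ∧ Lf.2 ≤ M := fun Lf hLf =>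
    ⟨Nat.le_floor (hA Lf hLf).1, Nat.le_floor (hA Lf hLf).2⟩
  have hMr : (M : ℝ) ≤ L ^ C := Nat.floor_le (by positivity)
  have hW : (Uni.WW y : ℝ) ≤ δ * N := by
    have h1 := hP.hW3
    have : (0:ℝ) ≤ k := Nat.cast_nonneg k
    linarith
  have hbig : ∀ n : ℕ, n ≤ (M ^ 2) ^ m → n ≤ ⌊L ^ (C * (2 * m : ℕ))⌋₊ := by
    intro n hn
    apply Nat.le_floor
    have h1 : (n : ℝ) ≤ ((M ^ 2) ^ m : ℕ) := by exact_mod_cast hn
    refine h1.trans ?_
    push_cast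
    rw [← pow_mul]
    calc (M : ℝ) ^ (2 * m) ≤ (L ^ C) ^ (2 * m) := pow_le_pow_left₀ (Nat.cast_nonneg _) hMr _
      _ = L ^ (C * (2 * m : ℕ)) := by rw [Real.rpow_mul_natCast hL0.le]
      _ = _ := by push_cast; rfl
  have hcoef : 0 ≤ (N:ℝ) / L ^ (k + 1) := by positivity
  have hSL : 0 ≤ ∑ T ∈ A.powersetCard (k + 1), SL T := by
    apply sum_nonneg
    intro T hT
    have hT' := mem_powersetCard.1 hT
    exact SL_nonneg (fun L hLT => hpA L (hT'.1 hLT))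
  have key := boundL (k := k) hCL (SZ_of (Uni.WW_pos y) hN1 hδ hW) hδ hδ1 hL0 hlam0 hpA hAM
    (by
      intro Lf hLf
      apply hP.htt _ (hpA Lf hLf).1
      apply hbig
      calc Lf.1 ≤ M := (hAM Lf hLf).1
        _ ≤ M ^ 2 := by nlinarith
        _ ≤ (M ^ 2) ^ m := Nat.le_self_pow (by omega) _)
    (by
      intro T hT
      have hT' := mem_powersetCard.1 hT
      have hpT : Prim T := fun L hLT => hpA L (hT'.1 hLT)
      apply hP.htt _ (Nat.one_le_iff_ne_zero.2 (disc_ne hpT))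
      apply hbig
      have := disc_le (T := T) hM1 (fun Lf hLf => hAM Lf (hT'.1 hLf))
      rw [hT'.2] at this
      exact this)
    hcard
  refine le_trans ?_ key
  apply mul_le_mul_of_nonneg_right _ hSL
  exact mul_le_mul_of_nonneg_right h5.le hcoef

end Pool.Agent.W218.MU
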