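import Mathlib
import Pool.Agent.W218.MU.Main

set_option autoImplicit false

/-! The forms `r n + 1`. -/

namespace Pool.Agent.W218.MU

open Finset Filter Topology Pool.Agent.H387R2 Pool.Agent.H386R2.HL

/-- the forms `r n + 1` -/
def em : ℕ ↪ ℕ × ℕ := ⟨fun r => (r, 1), fun a b h => (Prod.mk.inj h).1⟩

/-- the number of roots mod `p` -/
def wD (T : Finset ℕ) (p : ℕ) : ℕ := ((range p).filter (fun q => p ∣ ∏ r ∈ T, (q * r + 1))).card

/-- singular series of the forms `q r + 1`, `r ∈ T` -/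
noncomputable def SD (T : Finset ℕ) : ℝ :=
  ∏' p : Nat.Primes, (1 - (wD T p : ℝ) / ((p : ℕ) : ℝ)) / (1 - 1 / ((p : ℕ) : ℝ)) ^ T.card

/-- the number of `x ≤ q < 2x` with all `q r + 1`, `r ∈ T`, prime -/
def ND (x : ℕ) (T : Finset ℕ) : ℕ := ((Ico x (2 * x)).filter (fun q => ∀ r ∈ T, (q * r + 1).Prime)).card

lemma w_map (T : Finset ℕ) {p : ℕ} (hp : p.Prime) : w (T.map em) p = wD T p := by
  unfold w wD
  congr 1
  apply filter_congr
  intro q _
  rw [hp.prime.dvd_finset_prod_iff]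
  constructor
  · rintro ⟨L, hL, h⟩
    rw [Finset.mem_map] at hL
    obtain ⟨r, hr, rfl⟩ := hL
    refine ⟨r, hr, ?_⟩
    rw [mul_comm q r]
    exact h
  · rintro ⟨r, hr, h⟩
    refine ⟨em r, mem_map_of_mem em hr, ?_⟩
    rw [mul_comm q r] at h
    exact h

lemma SL_map (T : Finset ℕ) : SL (T.map em) = SD T := by
  unfold SL SD loc
  apply tprod_congr
  intro p
  rw [w_map T p.2, card_map]

lemma cnt_map (x : ℕ) (T : Finset ℕ) : cnt x (T.map em) = ND x T := by
  unfold cnt ND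
  congr 1
  apply filter_congr
  intro q _
  constructor
  · intro h r hr
    have := h (em r) (mem_map_of_mem em hr)
    rw [mul_comm q r]
    exact this
  · intro h L hL
    rw [Finset.mem_map] at hL
    obtain ⟨r, hr, rfl⟩ := hL
    have := h r hr
    rw [mul_comm q r] at this
    exact this

lemma prim_map {A : Finset ℕ} (hA : ∀ r ∈ A, 1 ≤ r) : Prim (A.map em) := by
  intro L hL
  rw [Finset.mem_map] at hL
  obtain ⟨r, hr, rfl⟩ := hL
  exact ⟨hA r hr, Nat.coprime_one_right r⟩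

lemma sum_map' {A : Finset ℕ} (m : ℕ) (f : Finset (ℕ × ℕ) → ℝ) :
    ∑ T ∈ (A.map em).powersetCard m, f T = ∑ T ∈ A.powersetCard m, f (T.map em) := by
  rw [powersetCard_map, sum_map]
  rfl

/-- the additive series is smaller -/
lemma w_le_nu {T : Finset ℕ} {p : ℕ} (hp : p.Prime) : w (T.map em) p ≤ Uni.nuT T p := by
  classical
  rw [w_map T hp]
  unfold wD Uni.nuT
  have hex : ∀ q ∈ (range p).filter (fun q => p ∣ ∏ r ∈ T, (q * r + 1)), ∃ r ∈ T, p ∣ q * r + 1 := by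
    intro q hq
    rw [mem_filter] at hq
    exact (hp.prime.dvd_finset_prod_iff _).1 hq.2
  choose! ρ h1 h2 using hex
  apply card_le_card_of_injOn (fun q => ρ q % p)
  · intro q hq
    rw [mem_coe] at hq
    exact mem_coe.2 (mem_image_of_mem _ (h1 q hq))
  · intro q hq q' hq' he
    rw [mem_coe] at hq hq'
    simp only at he
    have a1 := h2 q hq
    have a2 := h2 q' hq'
    rw [mem_filter, mem_range] at hq hq'
    have a3 : q' * ρ q + 1 ≡ 0 [MOD p] := by
      have : q' * ρ q + 1 ≡ q' * ρ q' + 1 [MOD p] := Nat.ModEq.add_right 1 (Nat.ModEq.mul_left q' he)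
      exact this.trans (Nat.modEq_zero_iff_dvd.2 a2)
    have a4 : q * ρ q + 1 ≡ 0 [MOD p] := Nat.modEq_zero_iff_dvd.2 a1
    have a5 : q * ρ q ≡ q' * ρ q [MOD p] := Nat.ModEq.add_right_cancel' 1 (a4.trans a3.symm)
    have hcop : Nat.gcd p (ρ q) = 1 := by
      rw [← Nat.Coprime, hp.coprime_iff_not_dvd]
      intro hd
      have : p ∣ 1 := (Nat.dvd_add_right (dvd_mul_of_dvd_right hd q)).1 a1
      exact hp.one_lt.ne' (Nat.dvd_one.1 this)
    have a6 : q ≡ q' [MOD p] := Nat.ModEq.cancel_right_of_coprime hcop a5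
    exact Nat.ModEq.eq_of_lt_of_lt a6 hq.1 hq'.1

lemma CT_le_SD {T : Finset ℕ} (hT : ∀ r ∈ T, 1 ≤ r) : Uni.CT T ≤ SD T := by
  rw [← SL_map]
  refine le_of_tendsto_of_tendsto' (Uni.CT_hasProd T) (SL_hasProd (prim_map hT)) (fun s => ?_)
  apply Finset.prod_le_prod
  · intro p _
    have := localFactor_nonneg (Uni.en T) p.2
    rwa [Uni.loc_en] at this
  · intro p _
    unfold Uni.locT loc
    rw [card_map]
    have h1 := one_sub_pos p.2
    have hp0 : (0:ℝ) < ((p : ℕ) : ℝ) := by exact_mod_cast p.2.pos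
    apply div_le_div_of_nonneg_right _ (by positivity)
    have h2 : (w (T.map em) p : ℝ) ≤ Uni.nuT T p := by exact_mod_cast w_le_nu p.2
    have := div_le_div_of_nonneg_right h2 hp0.le
    linarith

theorem SD_hasProd {T : Finset ℕ} (hT : ∀ r ∈ T, 1 ≤ r) :
    HasProd (fun p : Nat.Primes => (1 - (wD T p : ℝ) / ((p : ℕ) : ℝ)) / (1 - 1 / ((p : ℕ) : ℝ)) ^ T.card) (SD T) := by
  have h := SL_hasProd (prim_map hT)
  rw [SL_map] at h
  have e : (fun p : Nat.Primes => loc (T.map em) p) =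
      (fun p : Nat.Primes => (1 - (wD T p : ℝ) / ((p : ℕ) : ℝ)) / (1 - 1 / ((p : ℕ) : ℝ)) ^ T.card) := by
    funext p
    unfold loc
    rw [w_map T p.2, card_map]
  rw [← e]
  exact h

theorem dilMain (k : ℕ) : ∃ κ : ℝ, 0 < κ ∧ ∀ lam θ C : ℝ, (k : ℝ) < lam → 0 ≤ C →
    θ < ∏ i ∈ range k, (1 - (i + 1 : ℝ) / lam) →
    ∃ x₀ : ℕ, ∀ x : ℕ, x₀ ≤ x → ∀ A : Finset ℕ, (∀ r ∈ A, 1 ≤ r ∧ (r : ℝ) ≤ Real.log x ^ C) →
      (lam * Real.log x ≤ ∑ r ∈ A, (r : ℝ) / Nat.totient r →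
        θ * (x / Real.log x ^ (k + 1)) * ∑ T ∈ A.powersetCard (k + 1), SD T ≤
          ∑ T ∈ A.powersetCard (k + 1), (ND x T : ℝ)) ∧
      (lam * Real.log x ≤ A.card → κ * (A.card : ℝ) ^ (k + 1) ≤ ∑ T ∈ A.powersetCard (k + 1), SD T) := by
  refine ⟨(1 / 2) ^ (k + 1) / (3 / 2) ^ k / (k + 1).factorial / 2, by positivity, ?_⟩
  intro lam θ C hlam hC hθ
  have hlam0 : 0 < lam := lt_of_le_of_lt (Nat.cast_nonneg k) hlam
  obtain ⟨x1, h1⟩ := universalL k lam θ C hlam hC hθ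
  have tN : Tendsto (fun N : ℕ => (N : ℝ)) atTop atTop := tendsto_natCast_atTop_atTop
  have tL : Tendsto (fun N : ℕ => Real.log (N : ℝ)) atTop atTop := Real.tendsto_log_atTop.comp tN
  rw [← eventually_atTop]
  filter_upwards [eventually_ge_atTop x1, MB.CT_sum_ge k hlam0 1 le_rfl C, tL.eventually_ge_atTop 1]
    with x g1 g2 hL1
  intro A hA
  have hLC : 1 ≤ Real.log (x:ℝ) ^ C := Real.one_le_rpow hL1 hC
  constructor
  · intro hcard
    have := h1 x g1 (A.map em) (prim_map fun r hr => (hA r hr).1) (by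
      intro L hL
      rw [Finset.mem_map] at hL
      obtain ⟨r, hr, rfl⟩ := hL
      exact ⟨(hA r hr).2, by simpa [em] using hLC⟩) (by
      rw [sum_map]
      exact hcard)
    rw [sum_map', sum_map'] at this
    simp only [SL_map, cnt_map] at this
    exact this
  · intro hcard
    have h2 := g2 0 A (fun a _ => Nat.modEq_one) (fun a ha => Nat.le_floor (hA a ha).2) (by simpa using hcard)
    simp only [Nat.totient_one, Nat.cast_one, div_one, one_pow, mul_one] at h2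
    refine h2.trans ?_
    apply sum_le_sum
    intro T hT
    rw [mem_powersetCard] at hT
    exact CT_le_SD fun r hr => (hA r (hT.1 hr)).1

end Pool.Agent.W218.MU
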